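import Pool.Agent.R551.HC.Hard

/-!
# The half-chromatic number is as hard to approximate as the chromatic number

The definitions used in the statement:

* `Pool/Agent/R551/HC/Defs.lean`: `Gam G` is the continuous graph of `G` (in barycentric
  coordinates), `Path`, `dst` its path metric, `Ball` its closed balls, `HalfColourable G c` says
  that it is `(1/2, c)`-colourable, and `halfChi G` is the `1/2`-chromatic number;
* `Pool/Agent/R551/HC/Hard.lean`: `GCode`, `ord`, `gr` coded graphs and their number of vertices,
  `chi`, `hchi` the chromatic number and the `1/2`-chromatic number of the continuous graph of a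
  coded graph, and `HardToApprox φ ρ`: `NP`-hardness of approximating `φ` within the factor
  `ρ n`, as a polynomial-time gap reduction from every language in `NP`;
* `Pool/Agent/NPC/Defs.lean`: `PolyTime` (Turing machines), `InNP`, `bits`.

Zuckerman's theorem (2007) is the hypothesis of the second part, for all `δ > 0`; so the
`1/2`-chromatic number is `NP`-hard to approximate within `n ^ (1 - ε)` for all `ε > 0`.

Idea of the proof. Let a `(1/2, c)`-colouring be given and let `A` be the set of vertices whose
own ball is used. The colours of these balls colour `G[A]` properly. For an edge `uv` outside `A`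
the ball that contains its midpoint has its centre strictly inside this edge, and it contains `u`
or `v`. The balls of this kind that contain `u` are distinct and meet, so there are at most `c` of
them: the graph outside `A` has an orientation with outdegrees at most `c`, so it is
`2 c`-degenerate and `2 c + 1` further colours suffice.
-/

set_option autoImplicit false

namespace Pool.Agent.Results.MP_4d0379_lc.HalfChromaticInapproximable

open Pool.Agent.R551.HC

/-- For every finite graph with a vertex, `χ_{1/2}(Γ(G)) ≤ χ(G) ≤ 3 χ_{1/2}(Γ(G)) + 1`; and if it is
`NP`-hard to approximate `χ(G)` within the factor `n ^ (1 - δ)`, then it is `NP`-hard to approximate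
`χ_{1/2}(Γ(G))` within the factor `n ^ (1 - ε)`, for all `δ < ε ≤ 1`. -/
theorem result :
    (∀ (V : Type) [Fintype V] [DecidableEq V] [Nonempty V] (G : SimpleGraph V),
      (halfChi G : ℕ∞) ≤ G.chromaticNumber ∧ G.chromaticNumber ≤ 3 * (halfChi G : ℕ∞) + 1) ∧
    ∀ δ ε : ℝ, δ < ε → ε ≤ 1 →
      HardToApprox chi (fun n => (n : ℝ) ^ (1 - δ)) →
      HardToApprox hchi (fun n => (n : ℝ) ^ (1 - ε)) :=
  ⟨fun _ _ _ _ G => sandwich G, fun _ _ h1 h2 h3 => hardToApprox_transfer h1 h2 h3⟩

end Pool.Agent.Results.MP_4d0379_lc.HalfChromaticInapproximable
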